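import Pool.Agent.F5H.StmtsA

/-!
MP_f5cbfa_nt, squad F5H, row A_FIN: the hard half from the second moment
-/

set_option autoImplicit false

open MeasureTheory Filter Topology

namespace Pool.Agent.F5H.H83

open Pool.Agent.BTL Pool.Agent.F5S Pool.Agent.F5H

theorem KM_volume {M : ℝ} (hM : 1 ≤ M) : volume (KM M) < ⊤ := by
  have h : KM M ⊆ Metric.closedBall 0 M := by
    intro A hA
    rw [mem_closedBall_zero_iff]
    exact KM_abs_le hM hA
  exact (measure_mono h).trans_lt (Metric.isBounded_closedBall.measure_lt_top)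

theorem VA_nonneg (T L R e : ℝ) (p : ℝ × ℝ) {W : R6 → ℝ} (hW : ∀ c, 0 ≤ W c) (A : ℝ × ℝ × ℝ) :
    0 ≤ VA T L R e p W A :=
  integral_nonneg fun z => mul_nonneg (hW z.1) (sq_nonneg _)

theorem exp_one {T : ℝ} (hT : 1 ≤ T) :
    (Lx T ^ 6 * Rx T)⁻¹ * (T ^ (3 * rho0 / 2) * (T ^ 5 * Lx T ^ 3)) = T ^ (2 - rho0 / 2) := by
  have h0 : 0 < T := by linarith
  unfold Lx Rx
  have e1 : ((T ^ (277 / 500 : ℝ)) ^ 6 : ℝ) = T ^ (831 / 250 : ℝ) := by
    rw [← Real.rpow_natCast, ← Real.rpow_mul h0.le]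
    norm_num
  have e2 : ((T ^ (277 / 500 : ℝ)) ^ 3 : ℝ) = T ^ (831 / 500 : ℝ) := by
    rw [← Real.rpow_natCast, ← Real.rpow_mul h0.le]
    norm_num
  have e3 : (T ^ 5 : ℝ) = T ^ (5 : ℝ) := by
    rw [← Real.rpow_natCast]
    norm_num
  rw [e1, e2, e3, ← Real.rpow_add h0, ← Real.rpow_add h0, ← Real.rpow_add h0,
    ← Real.rpow_neg h0.le, ← Real.rpow_add h0]
  congr 1
  ring

theorem exp_two {T : ℝ} (hT : 1 ≤ T) :
    (T ^ (3 * rho0 / 2))⁻¹ * Bx T = T ^ (2 - rho0 / 2) := by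
  have h0 : 0 < T := by linarith
  unfold Bx
  rw [← Real.rpow_neg h0.le, ← Real.rpow_add h0]
  congr 1
  ring

/-- the estimate for large `T` -/
theorem large (hONE : ONEStmt) (hCHK : CHKStmt) {M : ℝ} (hM : 1 ≤ M) {e : ℝ} (he : 0 < e)
    (p : ℝ × ℝ) : ∃ C2 : ℝ, 1 ≤ C2 ∧ ∀ C1 : ℝ, 1 ≤ C1 → ∀ T : ℝ, 1 ≤ T → ∀ (del1 : ℝ) (W : R6 → ℝ),
    Adm T del1 W → Integrable (fun A => chK M A * VA T (Lx T) (Rx T) e p W A) →
    ∫ A, chK M A * VA T (Lx T) (Rx T) e p W A ≤ Lx T ^ 6 * Rx T * (C1 * Bx T) →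
    ∫⁻ A in KM M, ENNReal.ofReal |SW T (T ^ (277 / 500 : ℝ)) e W p A -
        IW (T ^ (277 / 500 : ℝ)) e W p A| ≤
      ENNReal.ofReal ((C2 * (volume (KM M)).toReal + C1) * T ^ (2 - rho0 / 2)) := by
  obtain ⟨C2, hC2, h2⟩ := hONE M hM e he p
  obtain ⟨hk1, hk2, -, -⟩ := hCHK M hM
  refine ⟨C2, hC2, fun C1 hC1 T hT del1 W hAdm hint hle => ?_⟩
  obtain ⟨hm, h01, hg, -⟩ := hAdm
  have hρ := rho0_pos
  have hρ1 := rho0_le
  set V : ℝ := (volume (KM M)).toReal with hV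
  have hV0 : 0 ≤ V := ENNReal.toReal_nonneg
  have hVt : volume (KM M) = ENNReal.ofReal V := (ENNReal.ofReal_toReal (KM_volume hM).ne).symm
  have hC20 : 0 ≤ C2 := by linarith
  have hC10 : 0 ≤ C1 := by linarith
  have hT0 : 0 < T := by linarith
  set μ : ℝ := T ^ (3 * rho0 / 2) with hμ
  have hμ0 : 0 < μ := Real.rpow_pos_of_pos hT0 _
  have hL0 : 0 < Lx T := Real.rpow_pos_of_pos hT0 _
  have hR0 : 0 < Rx T := Real.rpow_pos_of_pos hT0 _
  have hL1 : 1 ≤ Lx T := Real.one_le_rpow hT (by norm_num)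
  have hLT : Lx T ≤ T := by
    have h := Real.rpow_le_rpow_of_exponent_le hT (show (277 / 500 : ℝ) ≤ 1 by norm_num)
    rwa [Real.rpow_one] at h
  have hRT : Rx T ≤ T * Lx T := by
    have h : Rx T ≤ T ^ (1 + 277 / 500 : ℝ) := Real.rpow_le_rpow_of_exponent_le hT
      (show (669 / 500 + 2 * rho0 : ℝ) ≤ 1 + 277 / 500 by linarith)
    rwa [Real.rpow_add hT0, Real.rpow_one] at h
  have hnle : ∀ c, W c ≠ 0 → nle (2 * T) c := fun c hc => (hg c hc).1
  have hQ0 : 0 ≤ (Lx T ^ 6 * Rx T)⁻¹ := by positivity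
  -- the pointwise bound
  have hpt : ∀ A ∈ KM M, ENNReal.ofReal |SW T (T ^ (277 / 500 : ℝ)) e W p A -
      IW (T ^ (277 / 500 : ℝ)) e W p A| ≤
      ENNReal.ofReal (C2 * T ^ (2 - rho0 / 2)) +
        ENNReal.ofReal ((Lx T ^ 6 * Rx T)⁻¹ * μ⁻¹ *
          (chK M A * VA T (Lx T) (Rx T) e p W A)) := by
    intro A hA
    have hVA := VA_nonneg T (Lx T) (Rx T) e p (fun c => (h01 c).1) A
    rw [← ENNReal.ofReal_add (by positivity)
      (mul_nonneg (by positivity) (mul_nonneg (hk1 A).1 hVA))]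
    apply ENNReal.ofReal_le_ofReal
    refine (h2 A hA T (Lx T) (Rx T) μ hT hL1 hLT hR0 hRT hμ0 W hm h01 hnle).trans (le_of_eq ?_)
    rw [hk2 A hA, ← exp_one hT]
    ring
  calc ∫⁻ A in KM M, ENNReal.ofReal |SW T (T ^ (277 / 500 : ℝ)) e W p A -
        IW (T ^ (277 / 500 : ℝ)) e W p A|
      ≤ ∫⁻ A in KM M, (ENNReal.ofReal (C2 * T ^ (2 - rho0 / 2)) +
        ENNReal.ofReal ((Lx T ^ 6 * Rx T)⁻¹ * μ⁻¹ *
          (chK M A * VA T (Lx T) (Rx T) e p W A))) :=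
        setLIntegral_mono' (measurableSet_KM M) hpt
    _ = ENNReal.ofReal (C2 * T ^ (2 - rho0 / 2)) * volume (KM M) +
        ∫⁻ A in KM M, ENNReal.ofReal ((Lx T ^ 6 * Rx T)⁻¹ * μ⁻¹ *
          (chK M A * VA T (Lx T) (Rx T) e p W A)) := by
        rw [lintegral_add_left measurable_const, setLIntegral_const]
    _ ≤ ENNReal.ofReal (C2 * T ^ (2 - rho0 / 2)) * volume (KM M) +
        ∫⁻ A, ENNReal.ofReal ((Lx T ^ 6 * Rx T)⁻¹ * μ⁻¹ *
          (chK M A * VA T (Lx T) (Rx T) e p W A)) :=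
        add_le_add le_rfl (setLIntegral_le_lintegral _ _)
    _ = ENNReal.ofReal (C2 * T ^ (2 - rho0 / 2)) * ENNReal.ofReal V +
        ENNReal.ofReal (∫ A, (Lx T ^ 6 * Rx T)⁻¹ * μ⁻¹ *
          (chK M A * VA T (Lx T) (Rx T) e p W A)) := by
        rw [hVt, ofReal_integral_eq_lintegral_ofReal (hint.const_mul _)
          (Eventually.of_forall fun A => mul_nonneg (by positivity)
            (mul_nonneg (hk1 A).1 (VA_nonneg T (Lx T) (Rx T) e p (fun c => (h01 c).1) A)))]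
    _ ≤ ENNReal.ofReal (C2 * T ^ (2 - rho0 / 2) * V) +
        ENNReal.ofReal (C1 * T ^ (2 - rho0 / 2)) := by
        refine add_le_add (le_of_eq ?_) (ENNReal.ofReal_le_ofReal ?_)
        · rw [← ENNReal.ofReal_mul (by positivity)]
        · rw [integral_const_mul]
          calc (Lx T ^ 6 * Rx T)⁻¹ * μ⁻¹ * ∫ A, chK M A * VA T (Lx T) (Rx T) e p W A
              ≤ (Lx T ^ 6 * Rx T)⁻¹ * μ⁻¹ * (Lx T ^ 6 * Rx T * (C1 * Bx T)) :=
                mul_le_mul_of_nonneg_left hle (by positivity)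
            _ = C1 * (μ⁻¹ * Bx T) := by
                field_simp
            _ = C1 * T ^ (2 - rho0 / 2) := by rw [exp_two hT]
    _ = ENNReal.ofReal ((C2 * V + C1) * T ^ (2 - rho0 / 2)) := by
        rw [← ENNReal.ofReal_add (by positivity) (by positivity)]
        congr 1
        ring

theorem a_fin (hSEC : SECStmt) (hONE : ONEStmt) (hCHK : CHKStmt) (hSML : SMLStmt) : FINAStmt := by
  obtain ⟨del1, hd0, hd1, hS⟩ := hSEC
  have hρ := rho0_pos
  have hρ1 := rho0_le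
  refine ⟨277 / 500, del1, rho0 / 2, by norm_num, hd0, by linarith, by linarith, ?_⟩
  intro M hM e he p
  obtain ⟨C1, T0, hC1, hT0, h1⟩ := hS M hM e he p
  obtain ⟨C2, hC2, h2⟩ := large hONE hCHK hM he p
  obtain ⟨C3, hC3, h3⟩ := hSML e he T0 hT0
  set V : ℝ := (volume (KM M)).toReal with hV
  have hV0 : 0 ≤ V := ENNReal.toReal_nonneg
  have hVt : volume (KM M) = ENNReal.ofReal V := (ENNReal.ofReal_toReal (KM_volume hM).ne).symm
  have hC2V : 0 ≤ C2 * V := mul_nonneg (by linarith) hV0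
  have hC3V : 0 ≤ C3 * V := mul_nonneg (by linarith) hV0
  refine ⟨C2 * V + C1 + C3 * V, by linarith, fun T hT W hm h01 hg hlip => ?_⟩
  have hTp : 0 < T := by linarith
  have hpow : 1 ≤ T ^ (2 - rho0 / 2) := Real.one_le_rpow hT (by linarith)
  rcases le_total T0 T with h | h
  · have hAdm : Adm T del1 W := ⟨hm, h01, hg, hlip⟩
    obtain ⟨hint, hle⟩ := h1 T h W hAdm
    refine (h2 C1 hC1 T hT del1 W hAdm hint hle).trans (ENNReal.ofReal_le_ofReal ?_)
    exact mul_le_mul_of_nonneg_right (by linarith) (by linarith)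
  · have hnle : ∀ c, W c ≠ 0 → nle (2 * T) c := fun c hc => (hg c hc).1
    calc ∫⁻ A in KM M, ENNReal.ofReal |SW T (T ^ (277 / 500 : ℝ)) e W p A -
          IW (T ^ (277 / 500 : ℝ)) e W p A|
        ≤ ∫⁻ _ in KM M, ENNReal.ofReal C3 :=
          setLIntegral_mono' (measurableSet_KM M) fun A _ =>
            ENNReal.ofReal_le_ofReal (h3 T hT h W hm h01 hnle p A)
      _ = ENNReal.ofReal (C3 * V) := by
          rw [setLIntegral_const, hVt, ← ENNReal.ofReal_mul (by linarith)]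
      _ ≤ ENNReal.ofReal ((C2 * V + C1 + C3 * V) * T ^ (2 - rho0 / 2)) := by
          apply ENNReal.ofReal_le_ofReal
          have h5 : 0 ≤ C2 * V + C1 + C3 * V := by linarith
          nlinarith [mul_le_mul_of_nonneg_left hpow h5]

end Pool.Agent.F5H.H83
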